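import Pool.Agent.MBL.Defs

set_option autoImplicit false

namespace Pool.Agent.MBL

open Finset
open scoped Classical

private noncomputable def ball5 : Finset (ℤ × ℤ) :=
  ((Finset.Icc (-5 : ℤ) 5) ×ˢ (Finset.Icc (-5 : ℤ) 5)).filter (fun v => |v.1| + |v.2| ≤ 5)

private theorem ball5_card : ball5.card ≤ 61 := by
  have h : (((Finset.Icc (-5 : ℤ) 5) ×ˢ (Finset.Icc (-5 : ℤ) 5)).filter
      (fun v : ℤ × ℤ => |v.1| + |v.2| ≤ 5)).card = 61 := by decide +kernel
  unfold ball5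
  convert h.le

private theorem mem_ball5 {i j : ℤ} (h : |i| + |j| ≤ 5) : (i, j) ∈ ball5 := by
  unfold ball5
  rw [Finset.mem_filter, Finset.mem_product, Finset.mem_Icc, Finset.mem_Icc]
  have h1 := abs_nonneg i
  have h2 := abs_nonneg j
  have h3 : |i| ≤ 5 := by linarith
  have h4 : |j| ≤ 5 := by linarith
  exact ⟨⟨abs_le.1 h3, abs_le.1 h4⟩, h⟩

private noncomputable def bd (n m : ℕ) : Finset (ℤ × ℤ) :=
  (Finset.Ico (0 : ℤ) 5 ×ˢ Finset.Ico (0 : ℤ) m) ∪ (Finset.Ico ((n : ℤ) - 5) n ×ˢ Finset.Ico (0 : ℤ) m) ∪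
  ((Finset.Ico (0 : ℤ) n ×ˢ Finset.Ico (0 : ℤ) 5) ∪ (Finset.Ico (0 : ℤ) n ×ˢ Finset.Ico ((m : ℤ) - 5) m))

private theorem bd_card (n m : ℕ) : (bd n m).card ≤ 10 * (n + m) := by
  unfold bd
  refine (Finset.card_union_le _ _).trans ?_
  have h1 := Finset.card_union_le (Finset.Ico (0 : ℤ) 5 ×ˢ Finset.Ico (0 : ℤ) m)
    (Finset.Ico ((n : ℤ) - 5) n ×ˢ Finset.Ico (0 : ℤ) m)
  have h2 := Finset.card_union_le (Finset.Ico (0 : ℤ) n ×ˢ Finset.Ico (0 : ℤ) 5)
    (Finset.Ico (0 : ℤ) n ×ˢ Finset.Ico ((m : ℤ) - 5) m)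
  simp only [Finset.card_product, Int.card_Ico] at h1 h2
  have e1 : ((5 : ℤ) - 0).toNat = 5 := rfl
  have e2 : ((m : ℤ) - 0).toNat = m := by simp
  have e3 : ((n : ℤ) - 0).toNat = n := by simp
  have e4 : ((n : ℤ) - (n - 5)).toNat = 5 := by omega
  have e5 : ((m : ℤ) - (m - 5)).toNat = 5 := by omega
  rw [e1, e2, e4] at h1
  rw [e1, e3, e5] at h2
  omega

theorem cnt2 (n m : ℕ) (D : Finset (ℤ × ℤ)) (hD : D ⊆ box n m)
    (hdom : ∀ c ∈ box n m, 1 ≤ mult D c.1 c.2) :
    (D \ D.filter (fun d => Good D d.1 d.2)).card ≤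
      10 * (n + m) + 61 * ((box n m).filter (fun c => 2 ≤ mult D c.1 c.2)).card := by
  obtain ⟨F, hF⟩ : ∃ F, F = (box n m).filter (fun c => 2 ≤ mult D c.1 c.2) := ⟨_, rfl⟩
  rw [← hF]
  have hsub : D \ D.filter (fun d => Good D d.1 d.2) ⊆
      bd n m ∪ F.biUnion (fun c => ball5.image (fun v => c - v)) := by
    rintro ⟨a, b⟩ hd
    rw [Finset.mem_sdiff, Finset.mem_filter] at hd
    obtain ⟨hdD, hng⟩ := hd
    have hbox := hD hdD
    unfold box at hbox
    rw [Finset.mem_product, Finset.mem_Ico, Finset.mem_Ico] at hbox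
    obtain ⟨⟨ha0, han⟩, hb0, hbm⟩ := hbox
    have h1 : ∃ i j : ℤ, |i| + |j| ≤ 5 ∧ mult D (a + i) (b + j) ≠ 1 := by
      by_contra hcon
      apply hng
      refine ⟨hdD, hdD, fun i j hij => ?_⟩
      by_contra hne
      exact hcon ⟨i, j, hij, hne⟩
    obtain ⟨i, j, hij, hne⟩ := h1
    rw [Finset.mem_union]
    by_cases hc : (a + i, b + j) ∈ box n m
    · right
      have h2 := hdom _ hc
      have h3 : (a + i, b + j) ∈ F := by
        rw [hF, Finset.mem_filter]
        refine ⟨hc, ?_⟩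
        simp only at h2 ⊢
        omega
      rw [Finset.mem_biUnion]
      refine ⟨_, h3, ?_⟩
      rw [Finset.mem_image]
      exact ⟨(i, j), mem_ball5 hij, by simp⟩
    · left
      unfold box at hc
      rw [Finset.mem_product, Finset.mem_Ico, Finset.mem_Ico] at hc
      unfold bd
      simp only [Finset.mem_union, Finset.mem_product, Finset.mem_Ico]
      simp only at ha0 han hb0 hbm hc
      have h1 := abs_nonneg i
      have h2 := abs_nonneg j
      have h3 : |i| ≤ 5 := by linarith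
      have h4 : |j| ≤ 5 := by linarith
      have h5 := abs_le.1 h3
      have h6 := abs_le.1 h4
      omega
  refine (Finset.card_le_card hsub).trans ((Finset.card_union_le _ _).trans ?_)
  have h2 : (F.biUnion (fun c => ball5.image (fun v => c - v))).card ≤ F.card * 61 := by
    refine Finset.card_biUnion_le_card_mul _ _ _ (fun c _ => ?_)
    exact (Finset.card_image_le).trans ball5_card
  have h3 := bd_card n m
  omega

end Pool.Agent.MBL
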