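import Pool.Agent.MBL.Defs

/-! # MBL / Loc: exact domination near a vertex.
(all by `omega` from the relevant equations `mult = 1` with `ind ≤ 1`)
loc1: (1,1) has as only possible dominators (1,2), (2,1) (others dominate a neighbour of the origin twice or the origin);
(1,2) and (-1,2) both dominate (0,2), etc.: (1,2) in D gives (-2,1), (-1,-2), (2,-1) in D one after the other.
loc2: if RR around d: (3,1) in D is impossible ((2,1) would be dominated twice), same for its rotations; (2,4) in D: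
(2,1) has RR around it (radius 2 ball around (2,1)), so (1,3) in D, and (2,3) is dominated by (2,4) and (1,3). -/

set_option autoImplicit false

namespace Pool.Agent.MBL

open Finset

/-- indicator of the cell `(a + i, b + j)` -/
def X (D : Finset (ℤ × ℤ)) (a b i j : ℤ) : ℕ := if (a + i, b + j) ∈ D then 1 else 0

theorem X_eq {D : Finset (ℤ × ℤ)} {a b : ℤ} (h : Good D a b) (i j : ℤ) (hij : |i| + |j| ≤ 5) :
    X D a b i j + X D a b (i + 1) j + X D a b (i - 1) j + X D a b i (j + 1) + X D a b i (j - 1) = 1 := by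
  have := h.2 i j hij
  unfold mult ind at this
  unfold X
  rw [show a + (i + 1) = a + i + 1 by ring, show a + (i - 1) = a + i - 1 by ring,
    show b + (j + 1) = b + j + 1 by ring, show b + (j - 1) = b + j - 1 by ring]
  exact this

theorem X_mem {D : Finset (ℤ × ℤ)} {a b : ℤ} (i j : ℤ) : (a, b) + (i, j) ∈ D ↔ X D a b i j = 1 := by
  unfold X
  rw [Prod.mk_add_mk]
  split_ifs with h <;> simp [h]

theorem X_not {D : Finset (ℤ × ℤ)} {a b i j : ℤ} (h : X D a b i j = 0) : (a + i, b + j) ∉ D := by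
  unfold X at h
  intro hm
  rw [if_pos hm] at h
  exact absurd h (by norm_num)

theorem X_zero {D : Finset (ℤ × ℤ)} {a b : ℤ} (h : Good D a b) : X D a b 0 0 = 1 := by
  unfold X
  rw [add_zero, add_zero, if_pos h.1]

theorem allL {D : Finset (ℤ × ℤ)} {a b : ℤ} : (∀ ν ∈ LL, (a, b) + ν ∈ D) ↔
    X D a b 1 2 = 1 ∧ X D a b (-2) 1 = 1 ∧ X D a b (-1) (-2) = 1 ∧ X D a b 2 (-1) = 1 := by
  simp only [LL, Finset.mem_insert, Finset.mem_singleton, forall_eq_or_imp, forall_eq, X_mem]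

theorem allR {D : Finset (ℤ × ℤ)} {a b : ℤ} : (∀ ν ∈ RR, (a, b) + ν ∈ D) ↔
    X D a b 2 1 = 1 ∧ X D a b (-1) 2 = 1 ∧ X D a b (-2) (-1) = 1 ∧ X D a b 1 (-2) = 1 := by
  simp only [RR, Finset.mem_insert, Finset.mem_singleton, forall_eq_or_imp, forall_eq, X_mem]

theorem z1 {a b c d e : ℕ} (h : a + b + c + d + e = 1) (ha : a = 1) :
    b = 0 ∧ c = 0 ∧ d = 0 ∧ e = 0 := by omega

theorem fin8 {p q r s p' q' r' s' : ℕ} (h1 : p' + p = 1) (h2 : q + q' = 1) (h3 : r + r' = 1)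
    (h4 : s' + s = 1) (f1 : p' + s ≤ 1) (f2 : q + r' ≤ 1) (f3 : p + q' ≤ 1) (f4 : r + s' ≤ 1) :
    (p = 1 ∧ q = 1 ∧ r = 1 ∧ s = 1 ∧ p' = 0 ∧ q' = 0 ∧ r' = 0 ∧ s' = 0) ∨
    (p = 0 ∧ q = 0 ∧ r = 0 ∧ s = 0 ∧ p' = 1 ∧ q' = 1 ∧ r' = 1 ∧ s' = 1) := by
  rcases Nat.eq_zero_or_pos p with h | h
  · right; omega
  · left; omega

/-- the equations in the ball of radius 2 -/
theorem eqs {D : Finset (ℤ × ℤ)} {a b : ℤ} (h : Good D a b) (i j : ℤ) (hij : |i| + |j| ≤ 3)
    (h0 : X D a b i j = 1) :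
    (X D a b (i+1) (j+2) = 1 ∧ X D a b (i-2) (j+1) = 1 ∧ X D a b (i-1) (j-2) = 1 ∧ X D a b (i+2) (j-1) = 1 ∧
      X D a b (i+2) (j+1) = 0 ∧ X D a b (i-1) (j+2) = 0 ∧ X D a b (i-2) (j-1) = 0 ∧ X D a b (i+1) (j-2) = 0) ∨
    (X D a b (i+1) (j+2) = 0 ∧ X D a b (i-2) (j+1) = 0 ∧ X D a b (i-1) (j-2) = 0 ∧ X D a b (i+2) (j-1) = 0 ∧
      X D a b (i+2) (j+1) = 1 ∧ X D a b (i-1) (j+2) = 1 ∧ X D a b (i-2) (j-1) = 1 ∧ X D a b (i+1) (j-2) = 1) := by
  have b1 : |i + 1| ≤ |i| + 1 := by simpa using abs_add_le i 1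
  have b2 : |i - 1| ≤ |i| + 1 := by simpa using abs_sub i 1
  have b3 : |j + 1| ≤ |j| + 1 := by simpa using abs_add_le j 1
  have b4 : |j - 1| ≤ |j| + 1 := by simpa using abs_sub j 1
  have b5 : |i + 2| ≤ |i| + 2 := by simpa using abs_add_le i 2
  have b6 : |i - 2| ≤ |i| + 2 := by simpa using abs_sub i 2
  have b7 : |j + 2| ≤ |j| + 2 := by simpa using abs_add_le j 2
  have b8 : |j - 2| ≤ |j| + 2 := by simpa using abs_sub j 2
  have e0 := X_eq h i j (by linarith)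
  have e1 := X_eq h (i + 1) j (by linarith)
  have e2 := X_eq h (i - 1) j (by linarith)
  have e3 := X_eq h i (j + 1) (by linarith)
  have e4 := X_eq h i (j - 1) (by linarith)
  have d1 := X_eq h (i + 1) (j + 1) (by linarith)
  have d2 := X_eq h (i - 1) (j + 1) (by linarith)
  have d3 := X_eq h (i + 1) (j - 1) (by linarith)
  have d4 := X_eq h (i - 1) (j - 1) (by linarith)
  have f1 := X_eq h (i + 2) j (by linarith)
  have f2 := X_eq h (i - 2) j (by linarith)
  have f3 := X_eq h i (j + 2) (by linarith)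
  have f4 := X_eq h i (j - 2) (by linarith)
  have r1 : i + 1 + 1 = i + 2 := by ring
  have r2 : i + 1 - 1 = i := by ring
  have r3 : i - 1 + 1 = i := by ring
  have r4 : i - 1 - 1 = i - 2 := by ring
  have s1 : j + 1 + 1 = j + 2 := by ring
  have s2 : j + 1 - 1 = j := by ring
  have s3 : j - 1 + 1 = j := by ring
  have s4 : j - 1 - 1 = j - 2 := by ring
  simp only [r1, r2, r3, r4, s1, s2, s3, s4] at e1 e2 e3 e4 d1 d2 d3 d4
  obtain ⟨a1, a2, a3, a4⟩ := z1 e0 h0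
  rw [a1, h0] at e1
  rw [a2, h0] at e2
  rw [a3, h0] at e3
  rw [a4, h0] at e4
  have g1 : X D a b (i + 1) (j + 1) = 0 := by linarith [Nat.zero_le (X D a b (i+2) j), Nat.zero_le (X D a b (i+1) (j-1)), Nat.zero_le (X D a b (i+1) (j+1))]
  have g2 : X D a b (i - 1) (j + 1) = 0 := by linarith [Nat.zero_le (X D a b (i-2) j), Nat.zero_le (X D a b (i-1) (j-1)), Nat.zero_le (X D a b (i-1) (j+1))]
  have g3 : X D a b (i + 1) (j - 1) = 0 := by linarith [Nat.zero_le (X D a b (i+2) j), Nat.zero_le (X D a b (i+1) (j-1)), Nat.zero_le (X D a b (i+1) (j+1))]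
  have g4 : X D a b (i - 1) (j - 1) = 0 := by linarith [Nat.zero_le (X D a b (i-2) j), Nat.zero_le (X D a b (i-1) (j-1)), Nat.zero_le (X D a b (i-1) (j+1))]
  rw [g1, a3, a1] at d1
  rw [g2, a3, a2] at d2
  rw [g3, a4, a1] at d3
  rw [g4, a4, a2] at d4
  have t1 : i + 2 + 1 = i + 3 := by ring
  clear e0 e1 e2 e3 e4 b1 b2 b3 b4 b5 b6 b7 b8 hij
  refine fin8 (p := X D a b (i+1) (j+2)) (q := X D a b (i-2) (j+1)) (r := X D a b (i-1) (j-2))
    (s := X D a b (i+2) (j-1)) (p' := X D a b (i+2) (j+1)) (q' := X D a b (i-1) (j+2))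
    (r' := X D a b (i-2) (j-1)) (s' := X D a b (i+1) (j-2)) ?_ ?_ ?_ ?_ ?_ ?_ ?_ ?_
  · linarith
  · linarith
  · linarith
  · linarith
  · linarith [Nat.zero_le (X D a b (i+2) j), Nat.zero_le (X D a b (i+2+1) j), Nat.zero_le (X D a b (i+2-1) j)]
  · linarith [Nat.zero_le (X D a b (i-2) j), Nat.zero_le (X D a b (i-2+1) j), Nat.zero_le (X D a b (i-2-1) j)]
  · linarith [Nat.zero_le (X D a b i (j+2)), Nat.zero_le (X D a b i (j+2+1)), Nat.zero_le (X D a b i (j+2-1))]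
  · linarith [Nat.zero_le (X D a b i (j-2)), Nat.zero_le (X D a b i (j-2+1)), Nat.zero_le (X D a b i (j-2-1))]

theorem eqs0 {D : Finset (ℤ × ℤ)} {a b : ℤ} (h : Good D a b) :
    (X D a b 1 2 = 1 ∧ X D a b (-2) 1 = 1 ∧ X D a b (-1) (-2) = 1 ∧ X D a b 2 (-1) = 1 ∧
      X D a b 2 1 = 0 ∧ X D a b (-1) 2 = 0 ∧ X D a b (-2) (-1) = 0 ∧ X D a b 1 (-2) = 0) ∨
    (X D a b 1 2 = 0 ∧ X D a b (-2) 1 = 0 ∧ X D a b (-1) (-2) = 0 ∧ X D a b 2 (-1) = 0 ∧
      X D a b 2 1 = 1 ∧ X D a b (-1) 2 = 1 ∧ X D a b (-2) (-1) = 1 ∧ X D a b 1 (-2) = 1) := by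
  have := eqs h 0 0 (by norm_num) (X_zero h)
  norm_num at this
  exact this

theorem loc1 (D : Finset (ℤ × ℤ)) (a b : ℤ) (h : Good D a b) :
    (∀ ν ∈ LL, (a, b) + ν ∈ D) ∨ (∀ ν ∈ RR, (a, b) + ν ∈ D) := by
  rw [allL, allR]
  rcases eqs0 h with ⟨h1, h2, h3, h4, -⟩ | ⟨-, -, -, -, h1, h2, h3, h4⟩
  · exact Or.inl ⟨h1, h2, h3, h4⟩
  · exact Or.inr ⟨h1, h2, h3, h4⟩

theorem locL (D : Finset (ℤ × ℤ)) (a b : ℤ) (h : Good D a b) (ν : ℤ × ℤ) (hν : ν ∈ LL)
    (hd : (a, b) + ν ∈ D) : ∀ μ ∈ LL, (a, b) + μ ∈ D := by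
  rw [allL]
  rcases eqs0 h with ⟨h1, h2, h3, h4, -⟩ | ⟨h1, h2, h3, h4, -⟩
  · exact ⟨h1, h2, h3, h4⟩
  · exfalso
    simp only [LL, Finset.mem_insert, Finset.mem_singleton] at hν
    rcases hν with rfl | rfl | rfl | rfl <;> rw [X_mem] at hd
    · rw [h1] at hd; exact absurd hd (by norm_num)
    · rw [h2] at hd; exact absurd hd (by norm_num)
    · rw [h3] at hd; exact absurd hd (by norm_num)
    · rw [h4] at hd; exact absurd hd (by norm_num)

theorem locR (D : Finset (ℤ × ℤ)) (a b : ℤ) (h : Good D a b) (ν : ℤ × ℤ) (hν : ν ∈ RR)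
    (hd : (a, b) + ν ∈ D) : ∀ μ ∈ RR, (a, b) + μ ∈ D := by
  rw [allR]
  rcases eqs0 h with ⟨-, -, -, -, h1, h2, h3, h4⟩ | ⟨-, -, -, -, h1, h2, h3, h4⟩
  · exfalso
    simp only [RR, Finset.mem_insert, Finset.mem_singleton] at hν
    rcases hν with rfl | rfl | rfl | rfl <;> rw [X_mem] at hd
    · rw [h1] at hd; exact absurd hd (by norm_num)
    · rw [h2] at hd; exact absurd hd (by norm_num)
    · rw [h3] at hd; exact absurd hd (by norm_num)
    · rw [h4] at hd; exact absurd hd (by norm_num)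
  · exact ⟨h1, h2, h3, h4⟩

theorem loc2 (D : Finset (ℤ × ℤ)) (a b : ℤ) (h : Good D a b) (hR : ∀ ν ∈ RR, (a, b) + ν ∈ D) :
    ∀ ν ∈ LL, ∀ d ∈ D, d ≠ (a, b) → (a, b) + ν - d ∉ LL := by
  rw [allR] at hR
  obtain ⟨r1, r2, r3, r4⟩ := hR
  have z := X_zero h
  have q1 : X D a b 1 3 = 1 := by
    have := eqs h 2 1 (by norm_num) r1
    norm_num at this
    rcases this with t | t
    · omega
    · exact t.2.2.2.2.2.1
  have q2 : X D a b (-3) 1 = 1 := by
    have := eqs h (-1) 2 (by norm_num) r2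
    norm_num at this
    rcases this with t | t
    · omega
    · exact t.2.2.2.2.2.2.1
  have q3 : X D a b (-1) (-3) = 1 := by
    have := eqs h (-2) (-1) (by norm_num) r3
    norm_num at this
    rcases this with t | t
    · omega
    · exact t.2.2.2.2.2.2.2
  have q4 : X D a b 3 (-1) = 1 := by
    have := eqs h 1 (-2) (by norm_num) r4
    norm_num at this
    rcases this with t | t
    · omega
    · exact t.2.2.2.2.1
  have k1 : X D a b 3 1 = 0 := by
    have := X_eq h 2 1 (by norm_num)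
    norm_num at this
    omega
  have k2 : X D a b (-1) 3 = 0 := by
    have := X_eq h (-1) 2 (by norm_num)
    norm_num at this
    omega
  have k3 : X D a b (-3) (-1) = 0 := by
    have := X_eq h (-2) (-1) (by norm_num)
    norm_num at this
    omega
  have k4 : X D a b 1 (-3) = 0 := by
    have := X_eq h 1 (-2) (by norm_num)
    norm_num at this
    omega
  have k5 : X D a b 2 4 = 0 := by
    have := X_eq h 2 3 (by norm_num)
    norm_num at this
    omega
  have k6 : X D a b (-4) 2 = 0 := by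
    have := X_eq h (-3) 2 (by norm_num)
    norm_num at this
    omega
  have k7 : X D a b (-2) (-4) = 0 := by
    have := X_eq h (-2) (-3) (by norm_num)
    norm_num at this
    omega
  have k8 : X D a b 4 (-2) = 0 := by
    have := X_eq h 3 (-2) (by norm_num)
    norm_num at this
    omega
  intro ν hν d hd hne hw
  have n1 := X_not k1
  have n2 := X_not k2
  have n3 := X_not k3
  have n4 := X_not k4
  have n5 := X_not k5
  have n6 := X_not k6
  have n7 := X_not k7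
  have n8 := X_not k8
  generalize hμ : (a, b) + ν - d = μ at hw
  have hdd : d = (a, b) + (ν - μ) := by rw [← hμ]; abel
  simp only [LL, Finset.mem_insert, Finset.mem_singleton] at hν hw
  rcases hν with rfl | rfl | rfl | rfl <;> rcases hw with rfl | rfl | rfl | rfl <;>
    norm_num at hdd <;>
    first
    | exact hne hdd
    | exact n1 (hdd ▸ hd)
    | exact n2 (hdd ▸ hd)
    | exact n3 (hdd ▸ hd)
    | exact n4 (hdd ▸ hd)
    | exact n5 (hdd ▸ hd)
    | exact n6 (hdd ▸ hd)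
    | exact n7 (hdd ▸ hd)
    | exact n8 (hdd ▸ hd)

end Pool.Agent.MBL
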