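import Pool.Agent.MBL.Defs

/-! # MBL / Ord: the order lemma.
4|P| = number of (d,ν), d in P, ν in N. Those with e = d+ν in P and τ d < τ e: the map to e is injective (if d, d2 both
before e, τ d < τ d2, then `ho` for d2 is violated by d' = d), so at most |P|; those with τ e < τ d: swap, at most |P|;
those with e not in P: e in D \ G, at most |N| |D \ G|. -/

set_option autoImplicit false

namespace Pool.Agent.MBL

open Finset

theorem order (D P G N : Finset (ℤ × ℤ)) (hN : ∀ ν ∈ N, -ν ∈ N) (h0 : (0 : ℤ × ℤ) ∉ N) (τ : ℤ × ℤ → ℕ)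
    (hτ : Set.InjOn τ D) (hP : P ⊆ D) (hPN : ∀ d ∈ P, ∀ ν ∈ N, d + ν ∈ D)
    (hG : ∀ d ∈ P, ∀ ν ∈ N, d + ν ∈ G → d + ν ∈ P)
    (ho : ∀ d ∈ P, ∀ ν ∈ N, τ (d + ν) < τ d ∨ ∀ d' ∈ D, τ d' < τ d → d + ν - d' ∉ N) :
    N.card * P.card ≤ 2 * P.card + N.card * (D \ G).card := by
  classical
  set A : Finset ((ℤ × ℤ) × (ℤ × ℤ)) := P ×ˢ N with hA
  set A1 := A.filter (fun q => q.1 + q.2 ∈ P ∧ τ q.1 < τ (q.1 + q.2)) with hA1
  set A2 := A.filter (fun q => q.1 + q.2 ∈ P ∧ τ (q.1 + q.2) < τ q.1) with hA2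
  set A3 := A.filter (fun q => q.1 + q.2 ∉ P) with hA3
  have hsub : A ⊆ A1 ∪ A2 ∪ A3 := by
    intro q hq
    obtain ⟨hq1, hq2⟩ := mem_product.mp hq
    rw [mem_union, mem_union]
    by_cases h : q.1 + q.2 ∈ P
    · left
      rcases lt_trichotomy (τ q.1) (τ (q.1 + q.2)) with h1 | h1 | h1
      · exact Or.inl (mem_filter.mpr ⟨hq, h, h1⟩)
      · exfalso
        have h2 := hτ (mem_coe.mpr (hP hq1)) (mem_coe.mpr (hP h)) h1
        exact h0 (by rw [← left_eq_add.mp h2]; exact hq2)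
      · exact Or.inr (mem_filter.mpr ⟨hq, h, h1⟩)
    · exact Or.inr (mem_filter.mpr ⟨hq, h⟩)
  -- the key injectivity
  have key : ∀ d ∈ P, ∀ ν ∈ N, ∀ d₂ ∈ P, ∀ ν₂ ∈ N, d + ν = d₂ + ν₂ → τ d < τ d₂ →
      τ d₂ < τ (d₂ + ν₂) → False := by
    intro d hd ν hν d₂ hd₂ ν₂ hν₂ he hlt hlt₂
    rcases ho d₂ hd₂ ν₂ hν₂ with h | h
    · omega
    · refine h d (hP hd) hlt ?_
      rw [← he, add_sub_cancel_left]
      exact hν
  have h1 : A1.card ≤ P.card := by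
    refine card_le_card_of_injOn (fun q => q.1 + q.2) ?_ ?_
    · intro q hq
      exact (mem_filter.mp (mem_coe.mp hq)).2.1
    · rintro ⟨d, ν⟩ hq ⟨d₂, ν₂⟩ hq₂ he
      obtain ⟨hq, -, hl⟩ := mem_filter.mp (mem_coe.mp hq)
      obtain ⟨hq₂, -, hl₂⟩ := mem_filter.mp (mem_coe.mp hq₂)
      obtain ⟨hd, hν⟩ := mem_product.mp hq
      obtain ⟨hd₂, hν₂⟩ := mem_product.mp hq₂
      simp only at hd hν hd₂ hν₂ hl hl₂ he
      rcases lt_trichotomy (τ d) (τ d₂) with h | h | h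
      · exact (key d hd ν hν d₂ hd₂ ν₂ hν₂ he h hl₂).elim
      · have h2 := hτ (mem_coe.mpr (hP hd)) (mem_coe.mpr (hP hd₂)) h
        subst h2
        rw [add_left_cancel he]
      · exact (key d₂ hd₂ ν₂ hν₂ d hd ν hν he.symm h hl).elim
  have h2 : A2.card ≤ A1.card := by
    refine card_le_card_of_injOn (fun q => (q.1 + q.2, -q.2)) ?_ ?_
    · rintro ⟨d, ν⟩ hq
      obtain ⟨hq, hp, hl⟩ := mem_filter.mp (mem_coe.mp hq)
      obtain ⟨hd, hν⟩ := mem_product.mp hq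
      simp only at hd hν hp hl
      refine mem_coe.mpr (mem_filter.mpr ⟨mem_product.mpr ⟨hp, hN ν hν⟩, ?_⟩)
      simp only [add_neg_cancel_right]
      exact ⟨hd, hl⟩
    · rintro ⟨d, ν⟩ _ ⟨d₂, ν₂⟩ _ he
      simp only [Prod.mk.injEq, neg_inj] at he
      obtain ⟨he1, rfl⟩ := he
      rw [add_right_cancel he1]
  have h3 : A3.card ≤ (D \ G).card * N.card := by
    rw [← card_product]
    refine card_le_card_of_injOn (fun q => (q.1 + q.2, q.2)) ?_ ?_
    · rintro ⟨d, ν⟩ hq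
      obtain ⟨hq, hp⟩ := mem_filter.mp (mem_coe.mp hq)
      obtain ⟨hd, hν⟩ := mem_product.mp hq
      simp only at hd hν hp
      refine mem_coe.mpr (mem_product.mpr ⟨mem_sdiff.mpr ⟨hPN d hd ν hν, ?_⟩, hν⟩)
      intro hg
      exact hp (hG d hd ν hν hg)
    · rintro ⟨d, ν⟩ _ ⟨d₂, ν₂⟩ _ he
      simp only [Prod.mk.injEq] at he
      obtain ⟨he1, rfl⟩ := he
      rw [add_right_cancel he1]
  have h4 : A.card = P.card * N.card := card_product _ _
  have h5 : A.card ≤ A1.card + A2.card + A3.card :=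
    (card_le_card hsub).trans ((card_union_le _ _).trans
      (Nat.add_le_add_right (card_union_le _ _) _))
  rw [mul_comm N.card P.card, mul_comm N.card (D \ G).card]
  omega

end Pool.Agent.MBL
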