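import Pool.Agent.MBL.Play
import Pool.Agent.MBL.Loc
import Pool.Agent.MBL.Ord
import Pool.Agent.MBL.Cnt

/-! # MBL / Asm: assembly -/

set_option autoImplicit false

namespace Pool.Agent.MBL

open Finset
open scoped Classical

/-- the cell of a vertex of the grid -/
def cell {n m : ℕ} (p : Fin n × Fin m) : ℤ × ℤ := (((p.1 : ℕ) : ℤ), ((p.2 : ℕ) : ℤ))

theorem cell_inj {n m : ℕ} : Function.Injective (cell (n := n) (m := m)) := by
  rintro ⟨a, b⟩ ⟨c, d⟩ h
  simp only [cell, Prod.mk.injEq, Nat.cast_inj] at h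
  exact Prod.ext (Fin.ext h.1) (Fin.ext h.2)

theorem mem_box {n m : ℕ} (c : ℤ × ℤ) : c ∈ box n m ↔ ∃ p : Fin n × Fin m, cell p = c := by
  unfold box
  rw [Finset.mem_product, Finset.mem_Ico, Finset.mem_Ico]
  constructor
  · rintro ⟨⟨h1, h2⟩, h3, h4⟩
    refine ⟨(⟨c.1.toNat, by omega⟩, ⟨c.2.toNat, by omega⟩), ?_⟩
    unfold cell
    refine Prod.ext ?_ ?_
    · simp only; omega
    · simp only; omega
  · rintro ⟨p, rfl⟩
    have h1 := p.1.isLt
    have h2 := p.2.isLt
    unfold cell
    simp only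
    omega

theorem one_le_mult {n m : ℕ} (D : Finset (Fin n × Fin m)) (hD : Dom (grid n m) D) :
    ∀ c ∈ box n m, 1 ≤ mult (D.image cell) c.1 c.2 := by
  intro c hc
  obtain ⟨u, rfl⟩ := (mem_box c).1 hc
  obtain ⟨v, hv, h⟩ := hD u
  have hm : cell v ∈ D.image cell := Finset.mem_image_of_mem _ hv
  have key : ∀ a b : ℤ, cell v = (a, b) → ind (D.image cell) a b = 1 := by
    intro a b hab
    unfold ind
    rw [if_pos (hab ▸ hm)]
  unfold mult
  rcases h with rfl | h
  · have := key (cell v).1 (cell v).2 rfl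
    omega
  · rw [grid, SimpleGraph.boxProd_adj, SimpleGraph.pathGraph_adj, SimpleGraph.pathGraph_adj] at h
    rcases h with ⟨h1 | h1, h2⟩ | ⟨h1 | h1, h2⟩
    · have := key ((cell u).1 - 1) (cell u).2
        (Prod.ext (by simp only [cell]; omega) (by simp only [cell]; rw [h2]))
      omega
    · have := key ((cell u).1 + 1) (cell u).2
        (Prod.ext (by simp only [cell]; omega) (by simp only [cell]; rw [h2]))
      omega
    · have := key (cell u).1 ((cell u).2 - 1)
        (Prod.ext (by simp only [cell]; rw [h2]) (by simp only [cell]; omega))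
      omega
    · have := key (cell u).1 ((cell u).2 + 1)
        (Prod.ext (by simp only [cell]; rw [h2]) (by simp only [cell]; omega))
      omega

theorem LL_neg : ∀ ν ∈ LL, -ν ∈ LL := by decide
theorem RR_neg : ∀ ν ∈ RR, -ν ∈ RR := by decide
theorem LL_zero : (0 : ℤ × ℤ) ∉ LL := by decide
theorem RR_zero : (0 : ℤ × ℤ) ∉ RR := by decide
theorem LL_card : LL.card = 4 := by decide
theorem RR_card : RR.card = 4 := by decide

theorem main (n m k : ℕ) (h : WinD (Dom (grid n m)) k ∅ ∅) :
    305 * (n * m) ≤ 1524 * k + 50 * (n + m) := by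
  obtain ⟨D, S, τ, hk, hP, hdis, hinj, hok⟩ := play (Dom (grid n m)) cell k h
  set Z : Finset (ℤ × ℤ) := D.image cell with hZ
  have hZc : Z.card = D.card := Finset.card_image_of_injective _ cell_inj
  have hZb : Z ⊆ box n m := by
    intro c hc
    obtain ⟨p, -, rfl⟩ := Finset.mem_image.1 hc
    exact (mem_box _).2 ⟨p, rfl⟩
  have hdom := one_le_mult D hP
  rw [← hZ] at hdom
  have c1 := cnt1 n m Z hdom
  have c2 := cnt2 n m Z hZb hdom
  set Q := ((box n m).filter (fun c => 2 ≤ mult Z c.1 c.2)).card with hQ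
  set G := Z.filter (fun d => Good Z d.1 d.2) with hG
  set σ : ℤ × ℤ → ℕ := Function.extend cell τ 0 with hσ
  have hσc : ∀ p, σ (cell p) = τ p := fun p => cell_inj.extend_apply τ 0 p
  have hσi : Set.InjOn σ Z := by
    intro c hc c' hc' hcc
    obtain ⟨p, hp, rfl⟩ := Finset.mem_image.1 (Finset.mem_coe.1 hc)
    obtain ⟨q, hq, rfl⟩ := Finset.mem_image.1 (Finset.mem_coe.1 hc')
    rw [hσc, hσc] at hcc
    rw [hinj hp hq hcc]
  have memZ : ∀ p, cell p ∈ Z → p ∈ D := by
    intro p hp
    obtain ⟨q, hq, hqp⟩ := Finset.mem_image.1 hp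
    rwa [cell_inj hqp] at hq
  have eqn : ∀ d ν : ℤ × ℤ, (d + ν) + -ν = d := fun d ν => by abel
  -- left handed vertices
  set PL := Z.filter (fun d => Good Z d.1 d.2 ∧ ∀ ν ∈ LL, d + ν ∈ Z) with hPL
  set PR := Z.filter (fun d => Good Z d.1 d.2 ∧ ∀ ν ∈ RR, d + ν ∈ Z) with hPR
  have oL := order Z PL G LL LL_neg LL_zero σ hσi (Finset.filter_subset _ _)
    (fun d hd => (Finset.mem_filter.1 hd).2.2)
    (fun d hd ν hν hg => by
      have hg' := Finset.mem_filter.1 hg
      refine Finset.mem_filter.2 ⟨hg'.1, hg'.2, ?_⟩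
      have := locL Z (d + ν).1 (d + ν).2 hg'.2 (-ν) (LL_neg ν hν)
        (by rw [Prod.mk.eta, eqn]; exact (Finset.mem_filter.1 hd).1)
      simpa only [Prod.mk.eta] using this)
    (fun d hd ν hν => by
      obtain ⟨hdZ, hgood, hall⟩ := Finset.mem_filter.1 hd
      obtain ⟨p, hp, rfl⟩ := Finset.mem_image.1 hdZ
      obtain ⟨q, hq, hqe⟩ := Finset.mem_image.1 (hall ν hν)
      rcases (hok p hp).1 with ⟨e, he, hel⟩ | hr
      · exfalso
        have := hall _ hel
        rw [add_sub_cancel] at this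
        exact (Finset.disjoint_left.1 hdis (memZ e this)) he
      · have hqν : cell q - cell p ∈ LL := by rw [hqe, add_sub_cancel_left]; exact hν
        rw [← hqe]
        rcases hr q hqν with h1 | h1
        · left
          rw [hσc, hσc]
          exact h1.2
        · right
          intro d' hd' hlt
          obtain ⟨p', hp', rfl⟩ := Finset.mem_image.1 hd'
          rw [hσc, hσc] at hlt
          exact h1 p' hp' hlt)
  have oR := order Z PR G RR RR_neg RR_zero σ hσi (Finset.filter_subset _ _)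
    (fun d hd => (Finset.mem_filter.1 hd).2.2)
    (fun d hd ν hν hg => by
      have hg' := Finset.mem_filter.1 hg
      refine Finset.mem_filter.2 ⟨hg'.1, hg'.2, ?_⟩
      have := locR Z (d + ν).1 (d + ν).2 hg'.2 (-ν) (RR_neg ν hν)
        (by rw [Prod.mk.eta, eqn]; exact (Finset.mem_filter.1 hd).1)
      simpa only [Prod.mk.eta] using this)
    (fun d hd ν hν => by
      obtain ⟨hdZ, hgood, hall⟩ := Finset.mem_filter.1 hd
      obtain ⟨p, hp, rfl⟩ := Finset.mem_image.1 hdZ
      obtain ⟨q, hq, hqe⟩ := Finset.mem_image.1 (hall ν hν)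
      rcases (hok p hp).2 with ⟨e, he, hel⟩ | ⟨e, hel, p', hp', hlt, hel'⟩ | hr
      · exfalso
        have := hall _ hel
        rw [add_sub_cancel] at this
        exact (Finset.disjoint_left.1 hdis (memZ e this)) he
      · exfalso
        have hne : cell p' ≠ cell p := by
          intro he
          rw [cell_inj he] at hlt
          exact lt_irrefl _ hlt
        have := loc2 Z (cell p).1 (cell p).2 hgood
          (by simpa only [Prod.mk.eta] using hall) _ hel (cell p')
          (Finset.mem_image_of_mem _ hp') (by simpa only [Prod.mk.eta] using hne)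
        rw [Prod.mk.eta, add_sub_cancel] at this
        exact this hel'
      · have hqν : cell q - cell p ∈ RR := by rw [hqe, add_sub_cancel_left]; exact hν
        rw [← hqe]
        rcases hr q hqν with h1 | h1
        · left
          rw [hσc, hσc]
          exact h1.2
        · right
          intro d' hd' hlt
          obtain ⟨p', hp', rfl⟩ := Finset.mem_image.1 hd'
          rw [hσc, hσc] at hlt
          exact h1 p' hp' hlt)
  rw [LL_card] at oL
  rw [RR_card] at oR
  have hGc : G.card ≤ PL.card + PR.card := by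
    refine (Finset.card_le_card ?_).trans (Finset.card_union_le PL PR)
    intro d hd
    obtain ⟨hdZ, hgood⟩ := Finset.mem_filter.1 hd
    rcases loc1 Z d.1 d.2 hgood with h1 | h1
    · exact Finset.mem_union_left _ (Finset.mem_filter.2 ⟨hdZ, hgood, by
        simpa only [Prod.mk.eta] using h1⟩)
    · exact Finset.mem_union_right _ (Finset.mem_filter.2 ⟨hdZ, hgood, by
        simpa only [Prod.mk.eta] using h1⟩)
  have hsd : (Z \ G).card + G.card = Z.card :=
    Finset.card_sdiff_add_card_eq_card (Finset.filter_subset _ _)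
  have c2' : (Z \ G).card ≤ 10 * (n + m) + 61 * Q := c2
  have c1' : n * m + Q ≤ 5 * Z.card := c1
  generalize n * m = x at c1' ⊢
  omega

theorem main' (n m : ℕ) :
    ((305 * (n * m) : ℕ) : ℕ∞) ≤ 1524 * gammaMB (grid n m) + ((50 * (n + m) : ℕ) : ℕ∞) := by
  by_cases hne : ∃ k : ℕ, WinD (Dom (grid n m)) k ∅ ∅
  · have hmem : gammaMB (grid n m) ∈ {x : ℕ∞ | ∃ k : ℕ, x = k ∧ WinD (Dom (grid n m)) k ∅ ∅} := by
      unfold gammaMB
      refine csInf_mem ?_
      obtain ⟨k, hk⟩ := hne
      exact ⟨k, k, rfl, hk⟩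
    obtain ⟨k, hk, hw⟩ := hmem
    rw [hk]
    exact_mod_cast main n m k hw
  · have : gammaMB (grid n m) = ⊤ := by
      unfold gammaMB
      rw [show {x : ℕ∞ | ∃ k : ℕ, x = k ∧ WinD (Dom (grid n m)) k ∅ ∅} = ∅ by
        ext x
        simp only [Set.mem_setOf_eq, Set.mem_empty_iff_false, iff_false]
        rintro ⟨k, -, hk⟩
        exact hne ⟨k, hk⟩]
      exact sInf_empty
    rw [this, ENat.mul_top (by norm_num), top_add]
    exact le_top

end Pool.Agent.MBL
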