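import Pool.Agent.MBL.Defs

set_option linter.all false
set_option autoImplicit false

namespace Pool.Agent.MBL

open Finset
open scoped Classical

theorem cnt_shift (n m : ℕ) (D : Finset (ℤ × ℤ)) (u v : ℤ) :
    ∑ c ∈ box n m, ind D (c.1 + u) (c.2 + v) ≤ D.card := by
  unfold ind
  rw [← Finset.card_filter]
  apply Finset.card_le_card_of_injOn (fun c => (c.1 + u, c.2 + v))
  · intro c hc
    have hc' := hc
    simp only [Finset.coe_filter, Set.mem_setOf_eq] at hc'
    exact hc'.2
  · intro c _ c' _ h
    simp only [Prod.mk.injEq, add_left_inj] at h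
    exact Prod.ext h.1 h.2

theorem cnt1 (n m : ℕ) (D : Finset (ℤ × ℤ)) (hdom : ∀ c ∈ box n m, 1 ≤ mult D c.1 c.2) :
    n * m + ((box n m).filter (fun c => 2 ≤ mult D c.1 c.2)).card ≤ 5 * D.card := by
  have h1 : n * m + ((box n m).filter (fun c => 2 ≤ mult D c.1 c.2)).card
      ≤ ∑ c ∈ box n m, mult D c.1 c.2 := by
    have hb : (box n m).card = n * m := by
      simp [box]
    rw [Finset.card_filter, ← hb, Finset.card_eq_sum_ones, ← Finset.sum_add_distrib]
    apply Finset.sum_le_sum
    intro c hc
    have := hdom c hc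
    split_ifs with h
    · omega
    · omega
  have h2 : ∑ c ∈ box n m, mult D c.1 c.2 ≤ 5 * D.card := by
    unfold mult
    rw [Finset.sum_add_distrib, Finset.sum_add_distrib, Finset.sum_add_distrib,
      Finset.sum_add_distrib]
    have e0 := cnt_shift n m D 0 0
    have e1 := cnt_shift n m D 1 0
    have e2 := cnt_shift n m D (-1) 0
    have e3 := cnt_shift n m D 0 1
    have e4 := cnt_shift n m D 0 (-1)
    simp only [add_zero, ← sub_eq_add_neg] at e0 e1 e2 e3 e4
    omega
  exact h1.trans h2

end Pool.Agent.MBL
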