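import Mathlib

/-!
# MBL / Defs: the Maker-Breaker domination game; the plane grid (MP_204f32_co, lower bound)
-/

set_option autoImplicit false

namespace Pool.Agent.MBL

open Finset

/-- `D` dominates `G`: every vertex is in `D` or adjacent to a vertex of `D`. -/
def Dom {W : Type*} (G : SimpleGraph W) (D : Finset W) : Prop := ∀ u, ∃ v ∈ D, v = u ∨ G.Adj v u

/-- Position: `S`, `D` are the sets of Staller and Dominator, Dominator is to move. `WinD P k S D`: he can play so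
that after at most `k` further moves of his, whatever Staller does, his set has the property `P`. (After a move of
Dominator either `P` holds, or Staller moves: a vertex must be free, and all his answers are allowed.) -/
def WinD {W : Type*} [DecidableEq W] (P : Finset W → Prop) : ℕ → Finset W → Finset W → Prop
  | 0, _, D => P D
  | k + 1, S, D => P D ∨ ∃ d, d ∉ S ∧ d ∉ D ∧ (P (insert d D) ∨
      ((∃ s, s ∉ S ∧ s ∉ insert d D) ∧
        ∀ s, s ∉ S → s ∉ insert d D → WinD P k (insert s S) (insert d D)))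

/-- `γ_MB(G)`, Dominator first; `⊤` if he cannot win. -/
noncomputable def gammaMB {W : Type*} [DecidableEq W] (G : SimpleGraph W) : ℕ∞ :=
  sInf {x : ℕ∞ | ∃ k : ℕ, x = k ∧ WinD (Dom G) k ∅ ∅}

/-- the grid `P_n □ P_m` -/
def grid (n m : ℕ) : SimpleGraph (Fin n × Fin m) :=
  SimpleGraph.boxProd (SimpleGraph.pathGraph n) (SimpleGraph.pathGraph m)

def LL : Finset (ℤ × ℤ) := {(1, 2), (-2, 1), (-1, -2), (2, -1)}
def RR : Finset (ℤ × ℤ) := {(2, 1), (-1, 2), (-2, -1), (1, -2)}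

def ind (D : Finset (ℤ × ℤ)) (a b : ℤ) : ℕ := if (a, b) ∈ D then 1 else 0

/-- number of dominators of the cell `(a, b)` -/
def mult (D : Finset (ℤ × ℤ)) (a b : ℤ) : ℕ :=
  ind D a b + ind D (a + 1) b + ind D (a - 1) b + ind D a (b + 1) + ind D a (b - 1)

/-- all cells in the ball of radius 5 around the vertex `(a, b)` of `D` have exactly one dominator -/
def Good (D : Finset (ℤ × ℤ)) (a b : ℤ) : Prop :=
  (a, b) ∈ D ∧ ∀ i j : ℤ, |i| + |j| ≤ 5 → mult D (a + i) (b + j) = 1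

/-- the box `[0,n) × [0,m)` -/
noncomputable def box (n m : ℕ) : Finset (ℤ × ℤ) := Finset.Ico (0 : ℤ) n ×ˢ Finset.Ico (0 : ℤ) m

/-- Staller's answers: the information at `d` -/
def OKL {W : Type*} (φ : W → ℤ × ℤ) (S D : Finset W) (τ : W → ℕ) (d : W) : Prop :=
  (∃ e ∈ S, φ e - φ d ∈ LL) ∨
    ∀ e : W, φ e - φ d ∈ LL → (e ∈ D ∧ τ e < τ d) ∨ ∀ d' ∈ D, τ d' < τ d → φ e - φ d' ∉ LL

def OKR {W : Type*} (φ : W → ℤ × ℤ) (S D : Finset W) (τ : W → ℕ) (d : W) : Prop :=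
  (∃ e ∈ S, φ e - φ d ∈ RR) ∨
    (∃ e : W, φ e - φ d ∈ LL ∧ ∃ d' ∈ D, τ d' < τ d ∧ φ e - φ d' ∈ LL) ∨
    ∀ e : W, φ e - φ d ∈ RR → (e ∈ D ∧ τ e < τ d) ∨ ∀ d' ∈ D, τ d' < τ d → φ e - φ d' ∉ RR

end Pool.Agent.MBL
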