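import Pool.Agent.MBL.Defs

/-! # MBL / Play: Staller's strategy.
Invariant (Disjoint D S, τ < D.card on D, τ injective on D, OKL and OKR for all d in D). After Dominator's move d put
τ d := D.card and answer: a free e with e - d in LL and e - d' in LL for an earlier d'; otherwise the same with RR;
otherwise anything free. -/

set_option autoImplicit false

namespace Pool.Agent.MBL

open Finset

def Inv {W : Type*} (φ : W → ℤ × ℤ) (S D : Finset W) (τ : W → ℕ) : Prop :=
  Disjoint D S ∧ (∀ d ∈ D, τ d < D.card) ∧ Set.InjOn τ D ∧ ∀ d ∈ D, OKL φ S D τ d ∧ OKR φ S D τ d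

theorem OKL_mono {W : Type*} {φ : W → ℤ × ℤ} {S S' D : Finset W} {τ : W → ℕ} {d : W} (h : S ⊆ S')
    (ho : OKL φ S D τ d) : OKL φ S' D τ d := by
  rcases ho with ⟨e, he, h1⟩ | h1
  · exact Or.inl ⟨e, h he, h1⟩
  · exact Or.inr h1

theorem OKR_mono {W : Type*} {φ : W → ℤ × ℤ} {S S' D : Finset W} {τ : W → ℕ} {d : W} (h : S ⊆ S')
    (ho : OKR φ S D τ d) : OKR φ S' D τ d := by
  rcases ho with ⟨e, he, h1⟩ | h1
  · exact Or.inl ⟨e, h he, h1⟩
  · exact Or.inr h1

section
variable {W : Type*} [DecidableEq W] {φ : W → ℤ × ℤ} {S D : Finset W} {τ : W → ℕ}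

theorem OKL_ext {d d0 : W} (hd : d ∉ D) (h0 : d0 ∈ D) (hτ : τ d0 < D.card) (ho : OKL φ S D τ d0) :
    OKL φ S (insert d D) (Function.update τ d D.card) d0 := by
  have hne : d0 ≠ d := fun h => hd (h ▸ h0)
  rcases ho with h1 | h1
  · exact Or.inl h1
  · refine Or.inr fun e he => ?_
    rw [Function.update_of_ne hne]
    rcases h1 e he with ⟨h2, h3⟩ | h2
    · left
      have : e ≠ d := fun h => hd (h ▸ h2)
      rw [Function.update_of_ne this]
      exact ⟨Finset.mem_insert_of_mem h2, h3⟩
    · right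
      intro d' hd' hlt
      rcases Finset.mem_insert.1 hd' with rfl | hd'
      · rw [Function.update_self] at hlt
        omega
      · have : d' ≠ d := fun h => hd (h ▸ hd')
        rw [Function.update_of_ne this] at hlt
        exact h2 d' hd' hlt

theorem OKR_ext {d d0 : W} (hd : d ∉ D) (h0 : d0 ∈ D) (hτ : τ d0 < D.card) (ho : OKR φ S D τ d0) :
    OKR φ S (insert d D) (Function.update τ d D.card) d0 := by
  have hne : d0 ≠ d := fun h => hd (h ▸ h0)
  rcases ho with h1 | ⟨e, he, d', hd', hlt, h2⟩ | h1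
  · exact Or.inl h1
  · refine Or.inr (Or.inl ⟨e, he, d', Finset.mem_insert_of_mem hd', ?_, h2⟩)
    have : d' ≠ d := fun h => hd (h ▸ hd')
    rw [Function.update_of_ne hne, Function.update_of_ne this]
    exact hlt
  · refine Or.inr (Or.inr fun e he => ?_)
    rw [Function.update_of_ne hne]
    rcases h1 e he with ⟨h2, h3⟩ | h2
    · left
      have : e ≠ d := fun h => hd (h ▸ h2)
      rw [Function.update_of_ne this]
      exact ⟨Finset.mem_insert_of_mem h2, h3⟩
    · right
      intro d' hd' hlt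
      rcases Finset.mem_insert.1 hd' with rfl | hd'
      · rw [Function.update_self] at hlt
        omega
      · have : d' ≠ d := fun h => hd (h ▸ hd')
        rw [Function.update_of_ne this] at hlt
        exact h2 d' hd' hlt

theorem inv_of (hI : Inv φ S D τ) {d : W} (hd : d ∉ D) {S' : Finset W} (hS : S ⊆ S')
    (hdis : Disjoint (insert d D) S')
    (hL : OKL φ S' (insert d D) (Function.update τ d D.card) d)
    (hR : OKR φ S' (insert d D) (Function.update τ d D.card) d) :
    Inv φ S' (insert d D) (Function.update τ d D.card) := by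
  obtain ⟨h1, h2, h3, h4⟩ := hI
  have hc : (insert d D).card = D.card + 1 := Finset.card_insert_of_notMem hd
  have hu : ∀ x ∈ D, Function.update τ d D.card x = τ x := fun x hx =>
    Function.update_of_ne (ne_of_mem_of_not_mem hx hd) _ _
  refine ⟨hdis, fun x hx => ?_, fun x hx y hy hxy => ?_, fun x hx => ?_⟩
  · rw [hc]
    rcases Finset.mem_insert.1 hx with rfl | hx
    · rw [Function.update_self]
      omega
    · rw [hu x hx]
      have := h2 x hx
      omega
  · rcases Finset.mem_insert.1 (Finset.mem_coe.1 hx) with rfl | hx'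
    · rcases Finset.mem_insert.1 (Finset.mem_coe.1 hy) with rfl | hy'
      · rfl
      · rw [Function.update_self, hu y hy'] at hxy
        have := h2 y hy'
        omega
    · rcases Finset.mem_insert.1 (Finset.mem_coe.1 hy) with rfl | hy'
      · rw [Function.update_self, hu x hx'] at hxy
        have := h2 x hx'
        omega
      · rw [hu x hx', hu y hy'] at hxy
        exact h3 (Finset.mem_coe.2 hx') (Finset.mem_coe.2 hy') hxy
  · rcases Finset.mem_insert.1 hx with rfl | hx
    · exact ⟨hL, hR⟩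
    · exact ⟨OKL_ext hd hx (h2 x hx) (OKL_mono hS (h4 x hx).1),
        OKR_ext hd hx (h2 x hx) (OKR_mono hS (h4 x hx).2)⟩

theorem step (hI : Inv φ S D τ) {d : W} (hd : d ∉ D) (hdS : d ∉ S) :
    (∃ s, s ∉ S ∧ s ∉ insert d D ∧
      Inv φ (insert s S) (insert d D) (Function.update τ d D.card)) ∨
    (∀ S', S ⊆ S' → Disjoint (insert d D) S' →
      Inv φ S' (insert d D) (Function.update τ d D.card)) := by
  set τ' := Function.update τ d D.card with hτ'
  have hu : ∀ x ∈ D, τ' x = τ x := fun x hx =>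
    Function.update_of_ne (ne_of_mem_of_not_mem hx hd) _ _
  have hud : τ' d = D.card := Function.update_self _ _ _
  have hLL0 : (0 : ℤ × ℤ) ∉ LL := by decide
  have hRR0 : (0 : ℤ × ℤ) ∉ RR := by decide
  have hdisj : Disjoint (insert d D) S := by
    rw [Finset.disjoint_insert_left]
    exact ⟨hdS, hI.1⟩
  have hins : ∀ s, s ∉ insert d D → Disjoint (insert d D) (insert s S) := fun s hs => by
    rw [Finset.disjoint_insert_right]
    exact ⟨hs, hdisj⟩
  by_cases hL : ∃ e, e ∉ S ∧ e ∉ insert d D ∧ φ e - φ d ∈ LL ∧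
      ∃ d' ∈ insert d D, τ' d' < τ' d ∧ φ e - φ d' ∈ LL
  · obtain ⟨e, h1, h2, h3, d', h4, h5, h6⟩ := hL
    exact Or.inl ⟨e, h1, h2, inv_of hI hd (Finset.subset_insert _ _) (hins e h2)
      (Or.inl ⟨e, Finset.mem_insert_self _ _, h3⟩)
      (Or.inr (Or.inl ⟨e, h3, d', h4, h5, h6⟩))⟩
  · have okl : OKL φ S (insert d D) τ' d := by
      by_cases hS : ∃ e ∈ S, φ e - φ d ∈ LL
      · exact Or.inl hS
      · refine Or.inr fun e he => ?_
        by_cases heD : e ∈ insert d D
        · left
          have hne : e ≠ d := by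
            rintro rfl
            rw [sub_self] at he
            exact hLL0 he
          have heD' := Finset.mem_of_mem_insert_of_ne heD hne
          refine ⟨heD, ?_⟩
          rw [hu e heD', hud]
          exact hI.2.1 e heD'
        · right
          intro d' hd' hlt hmem
          exact hL ⟨e, fun h => hS ⟨e, h, he⟩, heD, he, d', hd', hlt, hmem⟩
    by_cases hR : ∃ e, e ∉ S ∧ e ∉ insert d D ∧ φ e - φ d ∈ RR ∧
      ∃ d' ∈ insert d D, τ' d' < τ' d ∧ φ e - φ d' ∈ RR
    · obtain ⟨e, h1, h2, h3, d', h4, h5, h6⟩ := hR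
      exact Or.inl ⟨e, h1, h2, inv_of hI hd (Finset.subset_insert _ _) (hins e h2)
        (OKL_mono (Finset.subset_insert _ _) okl)
        (Or.inl ⟨e, Finset.mem_insert_self _ _, h3⟩)⟩
    · have okr : OKR φ S (insert d D) τ' d := by
        by_cases hS : ∃ e ∈ S, φ e - φ d ∈ RR
        · exact Or.inl hS
        · refine Or.inr (Or.inr fun e he => ?_)
          by_cases heD : e ∈ insert d D
          · left
            have hne : e ≠ d := by
              rintro rfl
              rw [sub_self] at he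
              exact hRR0 he
            have heD' := Finset.mem_of_mem_insert_of_ne heD hne
            refine ⟨heD, ?_⟩
            rw [hu e heD', hud]
            exact hI.2.1 e heD'
          · right
            intro d' hd' hlt hmem
            exact hR ⟨e, fun h => hS ⟨e, h, he⟩, heD, he, d', hd', hlt, hmem⟩
      exact Or.inr fun S' hSS hdis => inv_of hI hd hSS hdis (OKL_mono hSS okl) (OKR_mono hSS okr)

end

theorem play_aux {W : Type*} [DecidableEq W] (P : Finset W → Prop) (φ : W → ℤ × ℤ) (k : ℕ) :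
    ∀ (S D : Finset W) (τ : W → ℕ), Inv φ S D τ → WinD P k S D →
      ∃ (D' S' : Finset W) (τ' : W → ℕ), D'.card ≤ D.card + k ∧ P D' ∧ Inv φ S' D' τ' := by
  induction k with
  | zero =>
    intro S D τ hI h
    exact ⟨D, S, τ, le_rfl, h, hI⟩
  | succ k ih =>
    intro S D τ hI h
    rcases h with h | ⟨d, hdS, hd, h⟩
    · exact ⟨D, S, τ, by omega, h, hI⟩
    · have hc : (insert d D).card = D.card + 1 := Finset.card_insert_of_notMem hd
      have hdisj : Disjoint (insert d D) S := by
        rw [Finset.disjoint_insert_left]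
        exact ⟨hdS, hI.1⟩
      rcases h with h | ⟨⟨s0, hs0, hs0'⟩, h⟩
      · rcases step hI hd hdS with ⟨s, -, -, hI'⟩ | hI'
        · exact ⟨insert d D, insert s S, _, by omega, h, hI'⟩
        · exact ⟨insert d D, S, _, by omega, h, hI' S (Finset.Subset.refl _) hdisj⟩
      · rcases step hI hd hdS with ⟨s, h1, h2, hI'⟩ | hI'
        · obtain ⟨D', S', τ', h3, h4, h5⟩ := ih _ _ _ hI' (h s h1 h2)
          exact ⟨D', S', τ', by omega, h4, h5⟩
        · have hI'' := hI' (insert s0 S) (Finset.subset_insert _ _) (by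
            rw [Finset.disjoint_insert_right]
            exact ⟨hs0', hdisj⟩)
          obtain ⟨D', S', τ', h3, h4, h5⟩ := ih _ _ _ hI'' (h s0 hs0 hs0')
          exact ⟨D', S', τ', by omega, h4, h5⟩

theorem play {W : Type*} [DecidableEq W] (P : Finset W → Prop) (φ : W → ℤ × ℤ) (k : ℕ)
    (h : WinD P k ∅ ∅) :
    ∃ (D S : Finset W) (τ : W → ℕ), D.card ≤ k ∧ P D ∧ Disjoint D S ∧ Set.InjOn τ D ∧
      ∀ d ∈ D, OKL φ S D τ d ∧ OKR φ S D τ d := by
  obtain ⟨D, S, τ, h1, h2, h3⟩ := play_aux P φ k ∅ ∅ (fun _ => 0)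
    ⟨by simp, by simp, by simp, by simp⟩ h
  refine ⟨D, S, τ, ?_, h2, h3.1, h3.2.2.1, h3.2.2.2⟩
  simpa using h1

end Pool.Agent.MBL
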